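import Pool.Agent.Q3.SgnCex.Attain

/-!
# MP_b48a23_an: a null sequence in the plane attaining every target with thin sets of signs
-/

open Filter Topology Set
open Pool.Agent.Q3.SgnDim
open scoped NNReal ENNReal

namespace Pool.Agent.Results.MP_b48a23_an.ThinFibres

/-- The set `E_L` of the sign sequences `ε` with `∑ ε_n a_n = L` (limit of the partial sums in the
given order; `a n` is `a_{n+1}`, and `sg (ε n) = ±1` is `ε_{n+1}`). -/
def E (a : ℕ → (Fin 2 → ℝ)) (L : Fin 2 → ℝ) : Set Om :=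
  {ε | Tendsto (fun N : ℕ => ∑ n ∈ Finset.range N, sg (ε n) • a n) atTop (𝓝 L)}

/-- There is a null sequence `(a_n)` in `ℝ²` such that every `L ∈ ℝ²` is the sum of `∑ ε_n a_n`
for some choice of signs, while for every `L` the set `E_L` of these choices has Hausdorff
dimension at most `1/2` in the metric `2^{-min {n : ε_n ≠ δ_n}}` of `Om = {-1,1}^ℕ`. -/
theorem result : ∃ a : ℕ → (Fin 2 → ℝ), Tendsto a atTop (𝓝 0) ∧ (∀ L, (E a L).Nonempty) ∧
    ∀ L, dimH (E a L) ≤ 1 / 2 := by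
  have key : ∀ (ε : Om) (L : Fin 2 → ℝ),
      ε ∈ E (fun n => ![Pool.Agent.Q3.SgnCex.ax n, Pool.Agent.Q3.SgnCex.ay n]) L ↔
      Tendsto (Pool.Agent.Q3.SgnCex.Sx ε) atTop (𝓝 (L 0)) ∧
      Tendsto (Pool.Agent.Q3.SgnCex.Sy ε) atTop (𝓝 (L 1)) := by
    intro ε L
    have h0 : (fun N : ℕ => (∑ n ∈ Finset.range N, sg (ε n) •
        (![Pool.Agent.Q3.SgnCex.ax n, Pool.Agent.Q3.SgnCex.ay n] : Fin 2 → ℝ)) 0) =
        Pool.Agent.Q3.SgnCex.Sx ε := by
      funext N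
      rw [Finset.sum_apply]
      simp [Pool.Agent.Q3.SgnCex.Sx]
    have h1 : (fun N : ℕ => (∑ n ∈ Finset.range N, sg (ε n) •
        (![Pool.Agent.Q3.SgnCex.ax n, Pool.Agent.Q3.SgnCex.ay n] : Fin 2 → ℝ)) 1) =
        Pool.Agent.Q3.SgnCex.Sy ε := by
      funext N
      rw [Finset.sum_apply]
      simp [Pool.Agent.Q3.SgnCex.Sy]
    unfold E
    rw [Set.mem_ofPred_eq, tendsto_pi_nhds, Fin.forall_fin_two, h0, h1]
  refine ⟨fun n => ![Pool.Agent.Q3.SgnCex.ax n, Pool.Agent.Q3.SgnCex.ay n], ?_, fun L => ?_,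
    fun L => ?_⟩
  · rw [tendsto_pi_nhds, Fin.forall_fin_two]
    exact ⟨Pool.Agent.Q3.SgnCex.tendsto_ax, Pool.Agent.Q3.SgnCex.tendsto_ay⟩
  · obtain ⟨ε, hε⟩ := Pool.Agent.Q3.SgnCex.attained (L 0) (L 1)
    exact ⟨ε, (key ε L).2 hε⟩
  · have h := Pool.Agent.Q3.SgnCex.dimH_le_half (L 0) (L 1)
    have e : ((1 / 2 : ℝ≥0) : ℝ≥0∞) = 1 / 2 := by
      rw [ENNReal.coe_div (by norm_num)]; simp
    rw [e] at h
    refine (dimH_mono ?_).trans h
    intro ε hε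
    exact (key ε L).1 hε

end Pool.Agent.Results.MP_b48a23_an.ThinFibres
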